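import Pool.Agent.Q78.BB.Stm

/-!
# Project BB, job K4: Cauchy-Schwarz for the kernel
-/

set_option autoImplicit false

open MeasureTheory Set Filter Topology
open scoped BigOperators

namespace Pool.Agent.Q149.BB

open Pool.Agent.Q78.BB
open Pool.Agent.Q276.BA (cc pp qq)

theorem pp_cont (b N : ℕ) : Continuous (pp b N) := by
  unfold pp
  fun_prop

/-- the arctan integral -/
theorem int_atan (α β : ℝ) (hα : 0 < α) (hβ : 0 < β) :
    ∫ r in (0 : ℝ)..1, (α * r ^ 2 + β)⁻¹ ≤ Real.pi / 2 / Real.sqrt (α * β) := by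
  obtain ⟨k, hk⟩ : ∃ k, k = Real.sqrt (α / β) := ⟨_, rfl⟩
  have hk0 : 0 < k := by rw [hk]; positivity
  have hk2 : k ^ 2 = α / β := by rw [hk]; exact Real.sq_sqrt (by positivity)
  have h1 : ∀ r : ℝ, (α * r ^ 2 + β)⁻¹ = β⁻¹ * (1 + (k * r) ^ 2)⁻¹ := by
    intro r
    rw [← mul_inv]
    congr 1
    rw [mul_pow, hk2]
    field_simp
    ring
  have h2 : ∫ r in (0 : ℝ)..1, (1 + (k * r) ^ 2)⁻¹ = k⁻¹ * Real.arctan k := by
    have h := intervalIntegral.integral_comp_mul_left (a := 0) (b := 1) (fun x : ℝ => (1 + x ^ 2)⁻¹) hk0.ne'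
    rw [h, mul_zero, mul_one, integral_inv_one_add_sq, Real.arctan_zero, sub_zero, smul_eq_mul]
  have h3 : ∫ r in (0 : ℝ)..1, (α * r ^ 2 + β)⁻¹ = β⁻¹ * (k⁻¹ * Real.arctan k) := by
    rw [← h2, ← intervalIntegral.integral_const_mul]
    exact intervalIntegral.integral_congr fun r _ => h1 r
  have h4 : Real.sqrt (α * β) = β * k := by
    rw [Real.sqrt_eq_iff_mul_self_eq (by positivity) (by positivity)]
    have e5 : β * k * (β * k) = β ^ 2 * k ^ 2 := by ring
    rw [e5, hk2]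
    field_simp
  rw [h3, h4]
  have h5 := (Real.arctan_lt_pi_div_two k).le
  calc β⁻¹ * (k⁻¹ * Real.arctan k) ≤ β⁻¹ * (k⁻¹ * (Real.pi / 2)) := by gcongr
    _ = Real.pi / 2 / (β * k) := by field_simp

/-- the substitution `v = r ^ 4` -/
theorem subst4 (b N : ℕ) : ∫ v in (0 : ℝ)..1, (1 - v) * (|qq (b + 1) N v| / v) =
    ∫ r in (0 : ℝ)..1, 4 * ((1 - r ^ 4) * (r ^ (2 * b + 1) * |pp (b + 1) N (r ^ 4)|)) := by
  rw [intervalIntegral.integral_of_le zero_le_one, intervalIntegral.integral_of_le zero_le_one]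
  have him : (fun r : ℝ => r ^ 4) '' Ioc 0 1 = Ioc 0 1 := by
    ext v
    constructor
    · rintro ⟨r, ⟨h0, h1⟩, rfl⟩
      exact ⟨pow_pos h0 4, pow_le_one₀ h0.le h1⟩
    · rintro ⟨h0, h1⟩
      refine ⟨Real.sqrt (Real.sqrt v), ⟨Real.sqrt_pos.2 (Real.sqrt_pos.2 h0), ?_⟩, ?_⟩
      · rw [Real.sqrt_le_one, Real.sqrt_le_one]
        exact h1
      · show Real.sqrt (Real.sqrt v) ^ 4 = v
        rw [show (4 : ℕ) = 2 * 2 by norm_num, pow_mul, Real.sq_sqrt (Real.sqrt_nonneg _), Real.sq_sqrt h0.le]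
  have h := integral_image_eq_integral_abs_deriv_smul (s := Ioc (0 : ℝ) 1) (f := fun r => r ^ 4)
    (f' := fun r => 4 * r ^ 3) measurableSet_Ioc
    (fun x _ => by simpa using (hasDerivAt_pow 4 x).hasDerivWithinAt)
    (fun x hx y hy hxy => by
      exact (pow_left_inj₀ hx.1.le hy.1.le (by norm_num)).1 hxy)
    (fun v => (1 - v) * (|qq (b + 1) N v| / v))
  rw [him] at h
  rw [h]
  refine setIntegral_congr_fun measurableSet_Ioc fun r hr => ?_
  have h0 : 0 < r := hr.1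
  have e1 : Real.sqrt (r ^ 4) = r ^ 2 := by
    rw [show r ^ 4 = (r ^ 2) ^ 2 by ring]
    exact Real.sqrt_sq (by positivity)
  show |4 * r ^ 3| • ((1 - r ^ 4) * (|qq (b + 1) N (r ^ 4)| / r ^ 4)) = _
  rw [qq, e1, abs_mul ((r ^ 2) ^ (b + 1)), abs_of_pos (by positivity : 0 < 4 * r ^ 3),
    abs_of_pos (by positivity : 0 < (r ^ 2) ^ (b + 1)), smul_eq_mul]
  field_simp
  ring

theorem key (b N : ℕ) (α β : ℝ) (hα : 0 < α) (hβ : 0 < β) :
    ∫ v in (0 : ℝ)..1, (1 - v) * (|qq (b + 1) N v| / v) ≤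
      (α * Ep (b + 1) N + β * Em (b + 1) N) / 2 + Real.pi / Real.sqrt (α * β) := by
  have hP := pp_cont (b + 1) N
  rw [subst4]
  have hE : (α * Ep (b + 1) N + β * Em (b + 1) N) / 2 =
      ∫ r in (0 : ℝ)..1, 2 * ((1 - r ^ 4) * (r ^ (4 * b + 2) * (pp (b + 1) N (r ^ 4)) ^ 2)) * (α * r ^ 2 + β) := by
    unfold Ep Em
    rw [show 4 * (b + 1) - 2 = 4 * b + 2 by omega]
    have e1 : ∀ A B : ℝ, (α * (4 * A) + β * (4 * B)) / 2 = 2 * α * A + 2 * β * B := fun A B => by ring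
    rw [e1, ← intervalIntegral.integral_const_mul, ← intervalIntegral.integral_const_mul,
      ← intervalIntegral.integral_add (Continuous.intervalIntegrable (by fun_prop) _ _)
        (Continuous.intervalIntegrable (by fun_prop) _ _)]
    refine intervalIntegral.integral_congr fun r _ => ?_
    ring
  have hden : ∀ r : ℝ, 0 < α * r ^ 2 + β := fun r => by positivity
  have hcw : Continuous fun r : ℝ => (α * r ^ 2 + β)⁻¹ :=
    Continuous.inv₀ (by fun_prop) fun r => (hden r).ne'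
  have hW : ∫ r in (0 : ℝ)..1, 2 * (α * r ^ 2 + β)⁻¹ ≤ Real.pi / Real.sqrt (α * β) := by
    rw [intervalIntegral.integral_const_mul]
    have h := int_atan α β hα hβ
    calc 2 * ∫ r in (0 : ℝ)..1, (α * r ^ 2 + β)⁻¹ ≤ 2 * (Real.pi / 2 / Real.sqrt (α * β)) := by linarith
      _ = _ := by ring
  rw [hE]
  refine le_trans ?_ (add_le_add_right hW _)
  rw [← intervalIntegral.integral_add (Continuous.intervalIntegrable (by fun_prop) _ _)
    (Continuous.intervalIntegrable (by fun_prop) _ _)]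
  refine intervalIntegral.integral_mono_on zero_le_one (Continuous.intervalIntegrable (by fun_prop) _ _)
    (Continuous.intervalIntegrable (by fun_prop) _ _) fun r hr => ?_
  obtain ⟨h0, h1⟩ := hr
  have hr4 : r ^ 4 ≤ 1 := pow_le_one₀ h0 h1
  have hr4' : 0 ≤ r ^ 4 := by positivity
  set w := α * r ^ 2 + β with hw
  have hw0 : 0 < w := hden r
  set x := r ^ (2 * b + 1) * |pp (b + 1) N (r ^ 4)| with hx
  have hx2 : r ^ (4 * b + 2) * (pp (b + 1) N (r ^ 4)) ^ 2 = x ^ 2 := by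
    rw [hx, mul_pow, sq_abs, ← pow_mul]
    congr 2
    ring
  rw [hx2]
  have h2 : 2 * x ≤ x ^ 2 * w + w⁻¹ := by
    have h3 : 0 ≤ (x * w - 1) ^ 2 / w := by positivity
    have h4 : (x * w - 1) ^ 2 / w = x ^ 2 * w + w⁻¹ - 2 * x := by
      field_simp
      ring
    linarith
  have h5 : (1 - r ^ 4) * (2 * x) ≤ (1 - r ^ 4) * (x ^ 2 * w + w⁻¹) := mul_le_mul_of_nonneg_left h2 (by linarith)
  have h6 : (1 - r ^ 4) * w⁻¹ ≤ w⁻¹ := by
    have h7 : 0 < w⁻¹ := inv_pos.2 hw0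
    nlinarith
  nlinarith

/-- **JOB K4** -/
theorem k4 : S_K4 := by
  intro b N hb _
  obtain ⟨b, rfl⟩ : ∃ b', b = b' + 1 := ⟨b - 1, by omega⟩
  have hEp : 0 ≤ Ep (b + 1) N := by
    unfold Ep
    refine mul_nonneg (by norm_num) (intervalIntegral.integral_nonneg zero_le_one fun r hr => ?_)
    have : r ^ 4 ≤ 1 := pow_le_one₀ hr.1 hr.2
    have h1 : 0 ≤ 1 - r ^ 4 := by linarith
    have h0 := hr.1
    positivity
  have hEm : 0 ≤ Em (b + 1) N := by
    unfold Em
    refine mul_nonneg (by norm_num) (intervalIntegral.integral_nonneg zero_le_one fun r hr => ?_)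
    have : r ^ 4 ≤ 1 := pow_le_one₀ hr.1 hr.2
    have h1 : 0 ≤ 1 - r ^ 4 := by linarith
    have h0 := hr.1
    positivity
  set A := Ep (b + 1) N with hA
  set B := Em (b + 1) N with hB
  have hlim : Tendsto (fun ε : ℝ => Real.sqrt (4 * Real.pi * Real.sqrt ((A + ε) * (B + ε)))) (𝓝[>] 0)
      (𝓝 (Real.sqrt (4 * Real.pi * Real.sqrt (A * B)))) := by
    have hc : Continuous fun ε : ℝ => Real.sqrt (4 * Real.pi * Real.sqrt ((A + ε) * (B + ε))) := by fun_prop
    have h := (hc.tendsto 0).mono_left (nhdsWithin_le_nhds (s := Ioi 0))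
    simpa using h
  refine ge_of_tendsto hlim ?_
  filter_upwards [self_mem_nhdsWithin] with ε hε
  have hε0 : 0 < ε := hε
  have p1 : 0 < A + ε := by linarith
  have p2 : 0 < B + ε := by linarith
  obtain ⟨s, hs⟩ : ∃ s, s = Real.sqrt ((A + ε) * (B + ε)) := ⟨_, rfl⟩
  have hs0 : 0 < s := by rw [hs]; positivity
  have hs2 : s ^ 2 = (A + ε) * (B + ε) := by rw [hs]; exact Real.sq_sqrt (by positivity)
  obtain ⟨M, hM⟩ : ∃ M, M = Real.sqrt (Real.pi * s) := ⟨_, rfl⟩
  have hM0 : 0 < M := by rw [hM]; exact Real.sqrt_pos.2 (by positivity)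
  have hM2 : M ^ 2 = Real.pi * s := by rw [hM]; exact Real.sq_sqrt (by positivity)
  have hk := key b N (M / (A + ε)) (M / (B + ε)) (by positivity) (by positivity)
  rw [← hA, ← hB] at hk
  have e1 : Real.sqrt (M / (A + ε) * (M / (B + ε))) = M / s := by
    rw [Real.sqrt_eq_iff_mul_self_eq (by positivity) (by positivity)]
    field_simp
    rw [hs2]
  have e2 : Real.sqrt (4 * Real.pi * s) = 2 * M := by
    rw [Real.sqrt_eq_iff_mul_self_eq (by positivity) (by positivity)]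
    linear_combination (-4 : ℝ) * hM2
  rw [← hs, e2]
  rw [e1] at hk
  have h1 : M / (A + ε) * A ≤ M := by
    rw [div_mul_eq_mul_div, div_le_iff₀ p1]
    nlinarith
  have h2 : M / (B + ε) * B ≤ M := by
    rw [div_mul_eq_mul_div, div_le_iff₀ p2]
    nlinarith
  have h3 : Real.pi / (M / s) = M := by
    field_simp
    linarith
  rw [h3] at hk
  linarith

end Pool.Agent.Q149.BB
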