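import Pool.Agent.Q78.BB.Stm
import Pool.Agent.Q182.BA.Num

/-!
# Project BB, job K6: the numerical inequality for `3 ≤ N ≤ 9`
-/

set_option autoImplicit false

namespace Pool.Agent.Q149.BB

open Pool.Agent.Q78.BB
open Pool.Agent.Q276.BA (eO)
open Pool.Agent.Q182.BA (eO_ge eO_succ)

theorem gen6 (N : ℕ) (S s1 s2 s3 l s4 : ℝ) (n1 : 0 ≤ s1) (n2 : 0 ≤ s2) (n3 : 0 ≤ s3) (n4 : 0 ≤ s4)
    (hS0 : 0 ≤ S) (hS : SS N ≤ S) (h1 : 2 * (N : ℝ) + 1 ≤ s1 ^ 2)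
    (h2 : (S + N / 4) * (N * (N + 1) * s1) ≤ s2 ^ 2) (h3 : 4 * 3.1416 * s2 ≤ s3 ^ 2)
    (hl : Real.log (2 * N + 1) ≤ l) (h4 : N * (1 + l) ≤ s4 ^ 2) (hE : 1 + s3 + 2 * s4 ≤ eO N) :
    1 + Real.sqrt (4 * Real.pi * Real.sqrt ((SS N + N / 4) * (N * (N + 1) * Real.sqrt (2 * N + 1)))) +
      2 * Real.sqrt (N * (1 + Real.log (2 * N + 1))) ≤ eO N := by
  have hN : (0 : ℝ) ≤ N := Nat.cast_nonneg _
  have a1 : Real.sqrt (2 * N + 1) ≤ s1 := Real.sqrt_le_iff.2 ⟨n1, h1⟩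
  have a2 : Real.sqrt ((SS N + N / 4) * (N * (N + 1) * Real.sqrt (2 * N + 1))) ≤ s2 := by
    refine Real.sqrt_le_iff.2 ⟨n2, le_trans ?_ h2⟩
    have b1 : (N : ℝ) * (N + 1) * Real.sqrt (2 * N + 1) ≤ N * (N + 1) * s1 :=
      mul_le_mul_of_nonneg_left a1 (by positivity)
    have b0 : 0 ≤ (N : ℝ) * (N + 1) * Real.sqrt (2 * N + 1) := by positivity
    exact mul_le_mul (by linarith) b1 b0 (by positivity)
  have a3 : Real.sqrt (4 * Real.pi * Real.sqrt ((SS N + N / 4) * (N * (N + 1) * Real.sqrt (2 * N + 1)))) ≤ s3 := by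
    refine Real.sqrt_le_iff.2 ⟨n3, le_trans ?_ h3⟩
    have b1 := Real.pi_lt_d4
    exact mul_le_mul (by linarith) a2 (Real.sqrt_nonneg _) (by norm_num)
  have a4 : Real.sqrt (N * (1 + Real.log (2 * N + 1))) ≤ s4 := by
    refine Real.sqrt_le_iff.2 ⟨n4, le_trans ?_ h4⟩
    exact mul_le_mul_of_nonneg_left (by linarith) hN
  linarith

theorem log_up (x y : ℝ) (k : ℕ) (hy : 0 < y) (hx : x = 2 ^ k * y) : Real.log x ≤ k * 0.6931471808 + (y - 1) := by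
  rw [hx, Real.log_mul (by positivity) hy.ne', Real.log_pow]
  have h1 := Real.log_two_lt_d9
  have h2 := Real.log_le_sub_one_of_pos hy
  have h3 : (k : ℝ) * Real.log 2 ≤ k * 0.6931471808 := mul_le_mul_of_nonneg_left h1.le (Nat.cast_nonneg _)
  linarith

theorem eO3 : (21.28 : ℝ) ≤ eO 3 := by
  have h1 := eO_ge 0
  rw [show (0 + 2 : ℕ) = 2 from rfl] at h1
  have h2 := eO_succ 2
  rw [show (2 + 1 : ℕ) = 3 from rfl] at h2
  have h3 := Real.quadratic_le_exp_of_nonneg (show (0 : ℝ) ≤ 2 / (2 * ((2 : ℕ) : ℝ) + 1) by positivity)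
  rw [h2]
  have h4 : (1.48 : ℝ) ≤ Real.exp (2 / (2 * ((2 : ℕ) : ℝ) + 1)) := by
    refine le_trans ?_ h3
    norm_num
  norm_num at h1
  nlinarith

theorem s_3 : SS 3 ≤ 2783 / 500 := by
  norm_num [SS, aa, dd, rr, Finset.sum_range_succ, Finset.prod_range_succ, Nat.factorial]

theorem c_3 : 1 + Real.sqrt (4 * Real.pi * Real.sqrt ((SS 3 + ((3 : ℕ) : ℝ) / 4) * (((3 : ℕ) : ℝ) * (((3 : ℕ) : ℝ) + 1) *
    Real.sqrt (2 * ((3 : ℕ) : ℝ) + 1)))) + 2 * Real.sqrt (((3 : ℕ) : ℝ) * (1 + Real.log (2 * ((3 : ℕ) : ℝ) + 1))) ≤ eO 3 := by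
  refine gen6 3 (2783 / 500) (1323 / 500) (7081 / 500) (13341 / 1000) (391 / 200) (1489 / 500) (by norm_num) (by norm_num) (by norm_num) (by norm_num)
    (by norm_num) s_3 (by norm_num) (by norm_num) (by norm_num) ?_ (by norm_num) ?_
  · have h := log_up (2 * ((3 : ℕ) : ℝ) + 1) (7 / 8) 3 (by norm_num) (by norm_num)
    norm_num at h ⊢
    linarith
  · have h := eO3
    norm_num at h ⊢
    linarith

theorem s_4 : SS 4 ≤ 849 / 100 := by
  norm_num [SS, aa, dd, rr, Finset.sum_range_succ, Finset.prod_range_succ, Nat.factorial]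

theorem c_4 : 1 + Real.sqrt (4 * Real.pi * Real.sqrt ((SS 4 + ((4 : ℕ) : ℝ) / 4) * (((4 : ℕ) : ℝ) * (((4 : ℕ) : ℝ) + 1) *
    Real.sqrt (2 * ((4 : ℕ) : ℝ) + 1)))) + 2 * Real.sqrt (((4 : ℕ) : ℝ) * (1 + Real.log (2 * ((4 : ℕ) : ℝ) + 1))) ≤ eO 4 := by
  refine gen6 4 (849 / 100) (3001 / 1000) (23867 / 1000) (17319 / 1000) (441 / 200) (3581 / 1000) (by norm_num) (by norm_num) (by norm_num) (by norm_num)
    (by norm_num) s_4 (by norm_num) (by norm_num) (by norm_num) ?_ (by norm_num) ?_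
  · have h := log_up (2 * ((4 : ℕ) : ℝ) + 1) (9 / 8) 3 (by norm_num) (by norm_num)
    norm_num at h ⊢
    linarith
  · have h := eO_ge 2
    rw [show (2 + 2 : ℕ) = 4 from rfl] at h
    norm_num at h ⊢
    linarith

theorem s_5 : SS 5 ≤ 5913 / 500 := by
  norm_num [SS, aa, dd, rr, Finset.sum_range_succ, Finset.prod_range_succ, Nat.factorial]

theorem c_5 : 1 + Real.sqrt (4 * Real.pi * Real.sqrt ((SS 5 + ((5 : ℕ) : ℝ) / 4) * (((5 : ℕ) : ℝ) * (((5 : ℕ) : ℝ) + 1) *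
    Real.sqrt (2 * ((5 : ℕ) : ℝ) + 1)))) + 2 * Real.sqrt (((5 : ℕ) : ℝ) * (1 + Real.log (2 * ((5 : ℕ) : ℝ) + 1))) ≤ eO 5 := by
  refine gen6 5 (5913 / 500) (3317 / 1000) (36073 / 1000) (5323 / 250) (491 / 200) (4157 / 1000) (by norm_num) (by norm_num) (by norm_num) (by norm_num)
    (by norm_num) s_5 (by norm_num) (by norm_num) (by norm_num) ?_ (by norm_num) ?_
  · have h := log_up (2 * ((5 : ℕ) : ℝ) + 1) (11 / 8) 3 (by norm_num) (by norm_num)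
    norm_num at h ⊢
    linarith
  · have h := eO_ge 3
    rw [show (3 + 2 : ℕ) = 5 from rfl] at h
    norm_num at h ⊢
    linarith

theorem s_6 : SS 6 ≤ 15533 / 1000 := by
  norm_num [SS, aa, dd, rr, Finset.sum_range_succ, Finset.prod_range_succ, Nat.factorial]

theorem c_6 : 1 + Real.sqrt (4 * Real.pi * Real.sqrt ((SS 6 + ((6 : ℕ) : ℝ) / 4) * (((6 : ℕ) : ℝ) * (((6 : ℕ) : ℝ) + 1) *
    Real.sqrt (2 * ((6 : ℕ) : ℝ) + 1)))) + 2 * Real.sqrt (((6 : ℕ) : ℝ) * (1 + Real.log (2 * ((6 : ℕ) : ℝ) + 1))) ≤ eO 6 := by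
  refine gen6 6 (15533 / 1000) (1803 / 500) (50791 / 1000) (3158 / 125) (1293 / 500) (4639 / 1000) (by norm_num) (by norm_num) (by norm_num) (by norm_num)
    (by norm_num) s_6 (by norm_num) (by norm_num) (by norm_num) ?_ (by norm_num) ?_
  · have h := log_up (2 * ((6 : ℕ) : ℝ) + 1) (13 / 16) 4 (by norm_num) (by norm_num)
    norm_num at h ⊢
    linarith
  · have h := eO_ge 4
    rw [show (4 + 2 : ℕ) = 6 from rfl] at h
    norm_num at h ⊢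
    linarith

theorem s_7 : SS 7 ≤ 9791 / 500 := by
  norm_num [SS, aa, dd, rr, Finset.sum_range_succ, Finset.prod_range_succ, Nat.factorial]

theorem c_7 : 1 + Real.sqrt (4 * Real.pi * Real.sqrt ((SS 7 + ((7 : ℕ) : ℝ) / 4) * (((7 : ℕ) : ℝ) * (((7 : ℕ) : ℝ) + 1) *
    Real.sqrt (2 * ((7 : ℕ) : ℝ) + 1)))) + 2 * Real.sqrt (((7 : ℕ) : ℝ) * (1 + Real.log (2 * ((7 : ℕ) : ℝ) + 1))) ≤ eO 7 := by
  refine gen6 7 (9791 / 500) (3873 / 1000) (3401 / 50) (29237 / 1000) (2711 / 1000) (5097 / 1000) (by norm_num) (by norm_num) (by norm_num) (by norm_num)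
    (by norm_num) s_7 (by norm_num) (by norm_num) (by norm_num) ?_ (by norm_num) ?_
  · have h := log_up (2 * ((7 : ℕ) : ℝ) + 1) (15 / 16) 4 (by norm_num) (by norm_num)
    norm_num at h ⊢
    linarith
  · have h := eO_ge 5
    rw [show (5 + 2 : ℕ) = 7 from rfl] at h
    norm_num at h ⊢
    linarith

theorem s_8 : SS 8 ≤ 479 / 20 := by
  norm_num [SS, aa, dd, rr, Finset.sum_range_succ, Finset.prod_range_succ, Nat.factorial]

theorem c_8 : 1 + Real.sqrt (4 * Real.pi * Real.sqrt ((SS 8 + ((8 : ℕ) : ℝ) / 4) * (((8 : ℕ) : ℝ) * (((8 : ℕ) : ℝ) + 1) *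
    Real.sqrt (2 * ((8 : ℕ) : ℝ) + 1)))) + 2 * Real.sqrt (((8 : ℕ) : ℝ) * (1 + Real.log (2 * ((8 : ℕ) : ℝ) + 1))) ≤ eO 8 := by
  refine gen6 8 (479 / 20) (1031 / 250) (4389 / 50) (33213 / 1000) (709 / 250) (277 / 50) (by norm_num) (by norm_num) (by norm_num) (by norm_num)
    (by norm_num) s_8 (by norm_num) (by norm_num) (by norm_num) ?_ (by norm_num) ?_
  · have h := log_up (2 * ((8 : ℕ) : ℝ) + 1) (17 / 16) 4 (by norm_num) (by norm_num)
    norm_num at h ⊢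
    linarith
  · have h := eO_ge 6
    rw [show (6 + 2 : ℕ) = 8 from rfl] at h
    norm_num at h ⊢
    linarith

theorem s_9 : SS 9 ≤ 14309 / 500 := by
  norm_num [SS, aa, dd, rr, Finset.sum_range_succ, Finset.prod_range_succ, Nat.factorial]

theorem c_9 : 1 + Real.sqrt (4 * Real.pi * Real.sqrt ((SS 9 + ((9 : ℕ) : ℝ) / 4) * (((9 : ℕ) : ℝ) * (((9 : ℕ) : ℝ) + 1) *
    Real.sqrt (2 * ((9 : ℕ) : ℝ) + 1)))) + 2 * Real.sqrt (((9 : ℕ) : ℝ) * (1 + Real.log (2 * ((9 : ℕ) : ℝ) + 1))) ≤ eO 9 := by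
  refine gen6 9 (14309 / 500) (4359 / 1000) (22009 / 200) (37187 / 1000) (2961 / 1000) (5971 / 1000) (by norm_num) (by norm_num) (by norm_num) (by norm_num)
    (by norm_num) s_9 (by norm_num) (by norm_num) (by norm_num) ?_ (by norm_num) ?_
  · have h := log_up (2 * ((9 : ℕ) : ℝ) + 1) (19 / 16) 4 (by norm_num) (by norm_num)
    norm_num at h ⊢
    linarith
  · have h := eO_ge 7
    rw [show (7 + 2 : ℕ) = 9 from rfl] at h
    norm_num at h ⊢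
    linarith

/-- **JOB K6** -/
theorem k6 : S_K6 := by
  intro N h3 h9
  interval_cases N
  · exact c_3
  · exact c_4
  · exact c_5
  · exact c_6
  · exact c_7
  · exact c_8
  · exact c_9

end Pool.Agent.Q149.BB
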